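import Pool.Agent.V11235.SQ.Main

/-!
# Digits of square roots between two places: the inequality
-/

set_option autoImplicit false

namespace Pool.Agent.V11235.SQ

open Finset

variable {d b : ℕ}

theorem A_sq_le (m : ℕ) : A d b m ^ 2 ≤ d * b ^ (2 * m) := Nat.sqrt_le' _

theorem lt_A_succ_sq (m : ℕ) : d * b ^ (2 * m) < (A d b m + 1) ^ 2 := Nat.lt_succ_sqrt' _

theorem A_sq_ne (hd : ¬ IsSquare d) (hb : 2 ≤ b) (m : ℕ) : A d b m ^ 2 ≠ d * b ^ (2 * m) := by
  intro h
  apply hd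
  have h1 : (b ^ m) ^ 2 ∣ A d b m ^ 2 := ⟨d, by rw [h]; ring⟩
  obtain ⟨k, hk⟩ := (Nat.pow_dvd_pow_iff (by norm_num)).1 h1
  refine ⟨k, ?_⟩
  rw [hk] at h
  have hpos : 0 < b ^ (2 * m) := by positivity
  have h2 : (b ^ (2 * m)) * (k * k) = (b ^ (2 * m)) * d := by
    calc (b ^ (2 * m)) * (k * k) = (b ^ m * k) ^ 2 := by ring
      _ = d * b ^ (2 * m) := h
      _ = _ := by ring
  exact (Nat.eq_of_mul_eq_mul_left hpos h2).symm

theorem pairs (hd : ¬ IsSquare d) (hb : 2 ≤ b) : ∃ C : ℕ, ∀ n m : ℕ, n ≤ m →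
    ((b : ℤ) - 1) * ((m : ℤ) - 2 * n - Nat.clog b (m + 1) - C) ≤
      kap b * ∑ l ∈ Ioc n m, (x d b l * S d b (min l (m - l)) : ℕ) := by
  have hd0 : 1 ≤ d := by
    rcases Nat.eq_zero_or_pos d with h | h
    · exact absurd ⟨0, by omega⟩ hd
    · exact h
  set c := Nat.clog b (2 * d + 3 * b ^ 2) with hc
  set c' := Nat.clog b (d + 1) with hc'
  refine ⟨c + c', fun n m hnm => ?_⟩
  set t := Nat.clog b (m + 1) with ht
  obtain ⟨H, L, h1, h2, h3⟩ := squares (d := d) hb n m (m - n) (by omega)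
  rw [show n + (m - n) = m by omega, Nat.sub_self, pow_zero, Nat.one_mul] at h1
  rw [show n + (m - n) = m by omega] at h2
  -- the sum of the digits of the first square
  have h4 : s b (A d b n ^ 2) ≤ (b - 1) * (2 * n + c') := by
    apply s_lt hb
    have h5 := A_sq_le (d := d) (b := b) n
    have h6 : d + 1 ≤ b ^ c' := Nat.le_pow_clog (by omega) _
    have hpos : 0 < b ^ (2 * n) := by positivity
    calc A d b n ^ 2 ≤ d * b ^ (2 * n) := h5
      _ < (d + 1) * b ^ (2 * n) := by nlinarith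
      _ ≤ b ^ c' * b ^ (2 * n) := Nat.mul_le_mul_right _ h6
      _ = b ^ (2 * n + c') := by rw [← pow_add]; congr 1; omega
  -- the error
  have h5 := A_sq_le (d := d) (b := b) m
  have h6 := lt_A_succ_sq (d := d) (b := b) m
  have h7 := A_sq_ne (m := m) hd hb
  have hAle : A d b m ≤ d * b ^ m := by
    have h8 : A d b m ^ 2 ≤ (d * b ^ m) ^ 2 := by
      refine h5.trans ?_
      have : (d * b ^ m) ^ 2 = (d * d) * b ^ (2 * m) := by ring
      rw [this]
      exact Nat.mul_le_mul_right _ (Nat.le_mul_of_pos_left _ hd0)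
    exact (Nat.pow_le_pow_iff_left (by norm_num)).1 h8
  have hr : ∃ r, d * b ^ (2 * m) = H + r ∧ 1 ≤ r ∧ r ≤ b ^ (m + c + t) := by
    refine ⟨d * b ^ (2 * m) - H, by omega, by omega, ?_⟩
    have h9 : d * b ^ (2 * m) - H ≤ 2 * A d b m + L := by
      have : (A d b m + 1) ^ 2 = A d b m ^ 2 + 2 * A d b m + 1 := by ring
      omega
    have h10 : 2 * d + 3 * b ^ 2 ≤ b ^ c := Nat.le_pow_clog (by omega) _
    have h11 : m + 1 ≤ b ^ t := Nat.le_pow_clog (by omega) _
    calc d * b ^ (2 * m) - H ≤ 2 * A d b m + L := h9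
      _ ≤ 2 * (d * b ^ m) + m * (3 * b ^ (m + 2)) := by
          have := h3.trans (Nat.mul_le_mul_right (3 * b ^ (m + 2)) (show m - n ≤ m by omega))
          omega
      _ ≤ (2 * d + 3 * b ^ 2) * (m + 1) * b ^ m := by
          have e1 : (2 * d + 3 * b ^ 2) * (m + 1) * b ^ m =
            2 * (d * b ^ m) + m * (3 * b ^ (m + 2)) + (2 * d * m * b ^ m + 3 * b ^ 2 * b ^ m) := by
              ring
          omega
      _ ≤ b ^ c * b ^ t * b ^ m := Nat.mul_le_mul_right _ (Nat.mul_le_mul h10 h11)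
      _ = b ^ (m + c + t) := by rw [← pow_add, ← pow_add]; congr 1; omega
  obtain ⟨r, hr1, hr2, hr3⟩ := hr
  have hb1 : ((b - 1 : ℕ) : ℤ) = (b : ℤ) - 1 := by
    rw [Nat.cast_sub (by omega)]
    simp
  rw [← hb1]
  have hb2 : (0 : ℤ) ≤ ((b - 1 : ℕ) : ℤ) := Nat.cast_nonneg _
  by_cases hv : m + c + t ≤ 2 * m
  · have h12 := s_below hb hd0 hv hr2 hr3
    rw [show d * b ^ (2 * m) - r = H by omega] at h12
    have h13 : (b - 1) * (2 * m - (m + c + t)) ≤ (b - 1) * (2 * n + c') +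
      kap b * ∑ l ∈ Ioc n m, x d b l * S d b (min l (m - l)) := by omega
    have h14 : (((b - 1) * (2 * m - (m + c + t)) : ℕ) : ℤ) ≤ (((b - 1) * (2 * n + c') +
      kap b * ∑ l ∈ Ioc n m, x d b l * S d b (min l (m - l)) : ℕ) : ℤ) := by exact_mod_cast h13
    rw [Nat.cast_mul, Nat.cast_sub hv] at h14
    push_cast at h14 ⊢
    nlinarith
  · have h12 : (m : ℤ) - 2 * n - t - (c + c') ≤ 0 := by
      push Not at hv
      have : ((2 * m : ℕ) : ℤ) < ((m + c + t : ℕ) : ℤ) := by exact_mod_cast hv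
      push_cast at this
      have h15 : (0 : ℤ) ≤ c' := Nat.cast_nonneg _
      have h16 : (0 : ℤ) ≤ n := Nat.cast_nonneg _
      linarith
    have h13 : ((b - 1 : ℕ) : ℤ) * ((m : ℤ) - 2 * n - t - ((c + c' : ℕ) : ℤ)) ≤ 0 := by
      push_cast
      exact mul_nonpos_of_nonneg_of_nonpos hb2 h12
    refine h13.trans ?_
    positivity

/-- the product form -/
theorem product (n m : ℕ) (hnm : n ≤ m) :
    ∑ l ∈ Ioc n m, x d b l * S d b (min l (m - l)) ≤
      (S d b m - S d b n) * S d b (m / 2) := by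
  have h1 : S d b m = S d b n + ∑ l ∈ Ioc n m, x d b l := by
    unfold S
    rw [Finset.range_eq_Ico, Finset.range_eq_Ico,
      ← Finset.sum_Ico_consecutive _ (Nat.zero_le (n + 1)) (show n + 1 ≤ m + 1 by omega)]
    congr 1
    refine Finset.sum_congr ?_ fun _ _ => rfl
    ext i
    simp only [Finset.mem_Ico, Finset.mem_Ioc]
    omega
  rw [h1, Nat.add_sub_cancel_left, Finset.sum_mul]
  refine Finset.sum_le_sum fun l _ => Nat.mul_le_mul_left _ (S_mono ?_)
  rcases Nat.le_total l (m - l) with h | h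
  · rw [min_eq_left h]
    omega
  · rw [min_eq_right h]
    omega

end Pool.Agent.V11235.SQ
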