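import Pool.Agent.V11235.SQ.Sum

/-!
# Digits of square roots between two places
-/

set_option autoImplicit false

namespace Pool.Agent.V11235.SQ

open Finset

/-- `⌊√d b ^ m⌋` -/
def A (d b m : ℕ) : ℕ := Nat.sqrt (d * b ^ (2 * m))

/-- the digits, the integral part being the digit with number `0` -/
def x (d b : ℕ) : ℕ → ℕ
  | 0 => A d b 0
  | i + 1 => A d b (i + 1) % b

/-- sums of digits -/
def S (d b k : ℕ) : ℕ := ∑ i ∈ range (k + 1), x d b i

/-- the factor for the double products -/
def kap (b : ℕ) : ℕ := if b = 2 then 1 else 2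

variable {d b : ℕ}

theorem A_div (hb : 2 ≤ b) (m : ℕ) : A d b (m + 1) / b = A d b m := by
  unfold A
  set N := d * b ^ (2 * m) with hN
  have e : d * b ^ (2 * (m + 1)) = b ^ 2 * N := by rw [hN]; ring
  rw [e]
  have h1 := Nat.sqrt_le' (b ^ 2 * N)
  have h2 : b ^ 2 * N < (Nat.sqrt (b ^ 2 * N) + 1) ^ 2 := Nat.lt_succ_sqrt' _
  have h3 : b * (Nat.sqrt (b ^ 2 * N) / b) ≤ Nat.sqrt (b ^ 2 * N) := Nat.mul_div_le _ _
  have h4 : Nat.sqrt (b ^ 2 * N) < b * (Nat.sqrt (b ^ 2 * N) / b + 1) :=
    Nat.lt_mul_div_succ _ (by omega)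
  generalize Nat.sqrt (b ^ 2 * N) / b = k at *
  generalize Nat.sqrt (b ^ 2 * N) = q at *
  rw [Nat.eq_sqrt']
  have hb2 : 0 < b ^ 2 := by positivity
  constructor
  · have h5 : b ^ 2 * k ^ 2 ≤ b ^ 2 * N := by
      calc b ^ 2 * k ^ 2 = (b * k) ^ 2 := by ring
        _ ≤ q ^ 2 := Nat.pow_le_pow_left h3 2
        _ ≤ b ^ 2 * N := h1
    exact Nat.le_of_mul_le_mul_left h5 hb2
  · have h5 : b ^ 2 * N < b ^ 2 * (k + 1) ^ 2 := by
      calc b ^ 2 * N < (q + 1) ^ 2 := h2
        _ ≤ (b * (k + 1)) ^ 2 := Nat.pow_le_pow_left h4 2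
        _ = b ^ 2 * (k + 1) ^ 2 := by ring
    exact Nat.lt_of_mul_lt_mul_left h5

theorem A_succ (hb : 2 ≤ b) (m : ℕ) : A d b (m + 1) = b * A d b m + x d b (m + 1) := by
  have h := Nat.mod_add_div (A d b (m + 1)) b
  rw [A_div hb] at h
  show _ = b * A d b m + A d b (m + 1) % b
  omega

theorem x_lt (hb : 2 ≤ b) (m : ℕ) : x d b (m + 1) < b := Nat.mod_lt _ (by omega)

theorem A_add (hb : 2 ≤ b) (j t : ℕ) : ∃ ρ, ρ < b ^ t ∧ A d b (j + t) = b ^ t * A d b j + ρ := by
  induction t with
  | zero => exact ⟨0, by simp, by simp⟩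
  | succ t ih =>
    obtain ⟨ρ, h1, h2⟩ := ih
    have h3 := A_succ (d := d) hb (j + t)
    have h4 := x_lt (d := d) hb (j + t)
    refine ⟨b * ρ + x d b (j + t + 1), ?_, ?_⟩
    · rw [pow_succ]
      nlinarith
    · rw [← Nat.add_assoc, h3, h2]
      ring

theorem s_A (hb : 2 ≤ b) (k : ℕ) : s b (A d b k) ≤ S d b k := by
  induction k with
  | zero =>
    unfold S
    rw [Finset.sum_range_one]
    exact s_le_self _ _
  | succ k ih =>
    unfold S at ih ⊢
    rw [Finset.sum_range_succ, A_succ hb]
    refine (s_add hb _ _).trans (Nat.add_le_add ?_ (s_le_self _ _))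
    have := s_pow_mul hb 1 (A d b k)
    rw [pow_one] at this
    rw [this]
    exact ih

theorem S_mono {j k : ℕ} (h : j ≤ k) : S d b j ≤ S d b k :=
  Finset.sum_le_sum_of_subset (Finset.range_mono (by omega))

theorem S_succ (k : ℕ) : S d b (k + 1) = S d b k + x d b (k + 1) := Finset.sum_range_succ _ _

theorem double_le {b y : ℕ} (hb : 2 ≤ b) (hy : y < b) (t z : ℕ) :
    s b (2 * y * b ^ t * z) ≤ kap b * y * s b z := by
  rcases Nat.lt_or_ge 2 b with h | h
  · have h1 : kap b = 2 := if_neg (by omega)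
    rw [h1, Nat.mul_assoc (2 * y)]
    refine (s_mul hb _ _).trans (le_of_eq ?_)
    rw [s_pow_mul hb]
  · have h2 : b = 2 := by omega
    subst h2
    have h1 : kap 2 = 1 := if_pos rfl
    rw [h1, show 2 * y * 2 ^ t * z = y * (2 ^ (t + 1) * z) by ring]
    refine (s_mul hb _ _).trans (le_of_eq ?_)
    rw [s_pow_mul hb]
    ring

theorem square_le {b y : ℕ} (hb : 2 ≤ b) (t : ℕ) : s b (y ^ 2 * b ^ t) ≤ kap b * y * y := by
  have h1 : 1 ≤ kap b := by
    unfold kap
    split_ifs <;> omega
  rw [Nat.mul_comm, s_pow_mul hb]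
  refine (s_le_self _ _).trans ?_
  nlinarith [Nat.zero_le (y * y)]

/-- the squares of the approximations -/
theorem squares (hb : 2 ≤ b) (n m : ℕ) : ∀ k : ℕ, n + k ≤ m → ∃ H L : ℕ,
    (b ^ (m - (n + k)) * A d b (n + k)) ^ 2 = H + L ∧
    s b H ≤ s b (A d b n ^ 2) +
      kap b * ∑ l ∈ Ioc n (n + k), x d b l * S d b (min l (m - l)) ∧
    L ≤ k * (3 * b ^ (m + 2)) := by
  intro k
  induction k with
  | zero =>
    intro h
    refine ⟨(b ^ (m - n) * A d b n) ^ 2, 0, rfl, ?_, by simp⟩
    rw [mul_pow, ← pow_mul, s_pow_mul hb]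
    simp
  | succ k ih =>
    intro h
    obtain ⟨H, L, h1, h2, h3⟩ := ih (by omega)
    set l := n + (k + 1) with hl
    have e1 : n + k = l - 1 := by omega
    have hxl : x d b l < b := by
      have := x_lt (d := d) hb (n + k)
      rwa [show n + k + 1 = l by omega] at this
    have hA : A d b l = b * A d b (l - 1) + x d b l := by
      have := A_succ (d := d) hb (n + k)
      rwa [show n + k + 1 = l by omega, e1] at this
    rw [e1] at h1
    have hsplit : (b ^ (m - l) * A d b l) ^ 2 = (b ^ (m - (l - 1)) * A d b (l - 1)) ^ 2 +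
        (2 * x d b l * b ^ (2 * (m - l) + 1) * A d b (l - 1) + x d b l ^ 2 * b ^ (2 * (m - l))) := by
      rw [hA, show m - (l - 1) = (m - l) + 1 by omega]
      ring
    have hsum : ∑ i ∈ Ioc n l, x d b i * S d b (min i (m - i)) =
        ∑ i ∈ Ioc n (n + k), x d b i * S d b (min i (m - i)) +
          x d b l * S d b (min l (m - l)) := by
      rw [hl, ← Nat.add_assoc, Finset.sum_Ioc_succ_top (by omega)]
    rw [hsplit, h1, hsum]
    by_cases hc : l ≤ m - l
    · refine ⟨H + (2 * x d b l * b ^ (2 * (m - l) + 1) * A d b (l - 1) +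
        x d b l ^ 2 * b ^ (2 * (m - l))), L, by ring, ?_, ?_⟩
      · have h4 := double_le hb hxl (2 * (m - l) + 1) (A d b (l - 1))
        have h5 := square_le (y := x d b l) hb (2 * (m - l))
        have h6 := s_A (d := d) hb (l - 1)
        have h7 : S d b (min l (m - l)) = S d b (l - 1) + x d b l := by
          rw [min_eq_left hc]
          have := S_succ (d := d) (b := b) (l - 1)
          rwa [show l - 1 + 1 = l by omega] at this
        have h8 := s_add hb H (2 * x d b l * b ^ (2 * (m - l) + 1) * A d b (l - 1) +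
          x d b l ^ 2 * b ^ (2 * (m - l)))
        have h9 := s_add hb (2 * x d b l * b ^ (2 * (m - l) + 1) * A d b (l - 1))
          (x d b l ^ 2 * b ^ (2 * (m - l)))
        have h10 : kap b * x d b l * s b (A d b (l - 1)) ≤ kap b * x d b l * S d b (l - 1) :=
          Nat.mul_le_mul_left _ h6
        rw [h7]
        have h11 : kap b * (∑ i ∈ Ioc n (n + k), x d b i * S d b (min i (m - i)) +
          x d b l * (S d b (l - 1) + x d b l)) =
          kap b * (∑ i ∈ Ioc n (n + k), x d b i * S d b (min i (m - i))) +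
            (kap b * x d b l * S d b (l - 1) + kap b * x d b l * x d b l) := by ring
        rw [h11]
        omega
      · refine h3.trans (Nat.mul_le_mul_right _ (by omega))
    · push Not at hc
      obtain ⟨ρ, hρ, hA2⟩ := A_add (d := d) hb (m - l) (l - 1 - (m - l))
      rw [show m - l + (l - 1 - (m - l)) = l - 1 by omega] at hA2
      have e2 : 2 * x d b l * b ^ (2 * (m - l) + 1) * A d b (l - 1) =
          2 * x d b l * b ^ m * A d b (m - l) + 2 * x d b l * b ^ (2 * (m - l) + 1) * ρ := by
        rw [hA2]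
        have : b ^ m = b ^ (2 * (m - l) + 1) * b ^ (l - 1 - (m - l)) := by
          rw [← pow_add]
          congr 1
          omega
        rw [this]
        ring
      refine ⟨H + 2 * x d b l * b ^ m * A d b (m - l),
        L + (2 * x d b l * b ^ (2 * (m - l) + 1) * ρ + x d b l ^ 2 * b ^ (2 * (m - l))), ?_, ?_, ?_⟩
      · rw [e2]
        ring
      · have h4 := double_le hb hxl m (A d b (m - l))
        have h6 := s_A (d := d) hb (m - l)
        have h8 := s_add hb H (2 * x d b l * b ^ m * A d b (m - l))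
        have h10 : kap b * x d b l * s b (A d b (m - l)) ≤ kap b * x d b l * S d b (m - l) :=
          Nat.mul_le_mul_left _ h6
        rw [min_eq_right hc.le]
        have h11 : kap b * (∑ i ∈ Ioc n (n + k), x d b i * S d b (min i (m - i)) +
          x d b l * S d b (m - l)) =
          kap b * (∑ i ∈ Ioc n (n + k), x d b i * S d b (min i (m - i))) +
            kap b * x d b l * S d b (m - l) := by ring
        rw [h11]
        omega
      · have h4 : 2 * x d b l * b ^ (2 * (m - l) + 1) * ρ ≤ 2 * b ^ (m + 2) := by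
          have h5 : b ^ (2 * (m - l) + 1) * ρ ≤ b ^ m := by
            calc b ^ (2 * (m - l) + 1) * ρ ≤ b ^ (2 * (m - l) + 1) * b ^ (l - 1 - (m - l)) :=
                  Nat.mul_le_mul_left _ hρ.le
              _ = b ^ m := by
                  rw [← pow_add]
                  congr 1
                  omega
          have hb1 : b ^ (m + 2) = b * b * b ^ m := by ring
          calc 2 * x d b l * b ^ (2 * (m - l) + 1) * ρ
              = 2 * x d b l * (b ^ (2 * (m - l) + 1) * ρ) := by ring
            _ ≤ 2 * b * b ^ m := Nat.mul_le_mul (Nat.mul_le_mul_left _ hxl.le) h5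
            _ ≤ 2 * b ^ (m + 2) := by
                rw [hb1]
                have : b * b ^ m ≤ b * (b * b ^ m) := Nat.le_mul_of_pos_left _ (by omega)
                nlinarith
        have h5 : x d b l ^ 2 * b ^ (2 * (m - l)) ≤ b ^ (m + 2) := by
          calc x d b l ^ 2 * b ^ (2 * (m - l)) ≤ b ^ 2 * b ^ m :=
                Nat.mul_le_mul (Nat.pow_le_pow_left hxl.le 2)
                  (Nat.pow_le_pow_right (by omega) (by omega))
            _ = b ^ (m + 2) := by ring
        have h6 : (k + 1) * (3 * b ^ (m + 2)) = k * (3 * b ^ (m + 2)) + 3 * b ^ (m + 2) := by ring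
        rw [h6]
        omega

end Pool.Agent.V11235.SQ
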