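import Mathlib

/-!
# Sums of digits of natural numbers
-/

set_option autoImplicit false

namespace Pool.Agent.V11235.SQ

/-- the sum of the base `b` digits -/
def s (b n : ℕ) : ℕ := (Nat.digits b n).sum

theorem s_rec {b : ℕ} (hb : 2 ≤ b) (n : ℕ) : s b n = n % b + s b (n / b) := by
  unfold s
  rcases Nat.eq_zero_or_pos n with h | h
  · subst h
    simp
  · rw [Nat.digits_def' (by omega) h]
    simp

theorem s_zero (b : ℕ) : s b 0 = 0 := by
  unfold s
  simp

theorem s_le_self (b n : ℕ) : s b n ≤ n := Nat.digit_sum_le b n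

theorem s_succ {b : ℕ} (hb : 2 ≤ b) (n : ℕ) : s b (n + 1) ≤ s b n + 1 := by
  induction n using Nat.strong_induction_on with
  | _ n ih =>
    rw [s_rec hb (n + 1), s_rec hb n]
    rcases Nat.eq_zero_or_pos n with h0 | h0
    · subst h0
      have h1 : (0 + 1) % b = 1 := Nat.mod_eq_of_lt (by omega)
      have h2 : (0 + 1) / b = 0 := Nat.div_eq_of_lt (by omega)
      rw [h1, h2, s_zero]
      omega
    · by_cases h : (n + 1) % b = 0
      · obtain ⟨k, hk⟩ := Nat.dvd_of_mod_eq_zero h
        have hk0 : 0 < k := by
          rcases Nat.eq_zero_or_pos k with h' | h'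
          · subst h'; omega
          · exact h'
        have h1 : (n + 1) / b = (n / b) + 1 := by
          have h2 : n = b * (k - 1) + (b - 1) := by
            obtain ⟨k', rfl⟩ : ∃ k', k = k' + 1 := ⟨k - 1, by omega⟩
            rw [Nat.add_sub_cancel]
            have : b * (k' + 1) = b * k' + b := by ring
            omega
          have h3 : n / b = k - 1 := by
            rw [h2, Nat.mul_add_div (by omega), Nat.div_eq_of_lt (by omega)]
            omega
          rw [h3, hk, Nat.mul_div_cancel_left _ (by omega)]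
          omega
        rw [h, h1]
        have h4 := ih (n / b) (Nat.div_lt_self h0 (by omega))
        omega
      · have h5 := Nat.mod_add_div n b
        have h6 : n % b + 1 < b := by
          by_contra hcon
          apply h
          have h7 : n % b = b - 1 := by
            have := Nat.mod_lt n (show b > 0 by omega)
            omega
          have h8 : n + 1 = b * (n / b + 1) := by
            have : b * (n / b + 1) = b * (n / b) + b := by ring
            omega
          rw [h8]
          exact Nat.mul_mod_right _ _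
        have h9 : n + 1 = b * (n / b) + (n % b + 1) := by omega
        have h10 : (n + 1) % b = n % b + 1 := by
          rw [h9, Nat.mul_add_mod, Nat.mod_eq_of_lt h6]
        have h11 : (n + 1) / b = n / b := by
          rw [h9, Nat.mul_add_div (by omega), Nat.div_eq_of_lt h6]
          omega
        rw [h10, h11]
        omega

theorem s_add {b : ℕ} (hb : 2 ≤ b) : ∀ x y : ℕ, s b (x + y) ≤ s b x + s b y := by
  intro x
  induction x using Nat.strong_induction_on with
  | _ x ih =>
    intro y
    rcases Nat.eq_zero_or_pos x with h0 | h0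
    · subst h0
      simp
    rw [s_rec hb (x + y), s_rec hb x, s_rec hb y]
    have hx := Nat.mod_lt x (show b > 0 by omega)
    have hy := Nat.mod_lt y (show b > 0 by omega)
    have hlt := ih (x / b) (Nat.div_lt_self h0 (by omega)) (y / b)
    have e : x + y = b * (x / b + y / b) + (x % b + y % b) := by
      have h1 := Nat.mod_add_div x b
      have h2 := Nat.mod_add_div y b
      have h3 : b * (x / b + y / b) = b * (x / b) + b * (y / b) := by ring
      omega
    by_cases h : x % b + y % b < b
    · have h1 : (x + y) % b = x % b + y % b := by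
        rw [e, Nat.mul_add_mod, Nat.mod_eq_of_lt h]
      have h2 : (x + y) / b = x / b + y / b := by
        rw [e, Nat.mul_add_div (by omega), Nat.div_eq_of_lt h]
        omega
      rw [h1, h2]
      omega
    · have e2 : x + y = b * (x / b + y / b + 1) + (x % b + y % b - b) := by
        have h3 : b * (x / b + y / b + 1) = b * (x / b + y / b) + b := by ring
        omega
      have h0 : x % b + y % b - b < b := by omega
      have h1 : (x + y) % b = x % b + y % b - b := by
        rw [e2, Nat.mul_add_mod, Nat.mod_eq_of_lt h0]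
      have h2 : (x + y) / b = x / b + y / b + 1 := by
        rw [e2, Nat.mul_add_div (by omega), Nat.div_eq_of_lt h0]
      have h3 := s_succ hb (x / b + y / b)
      rw [h1, h2]
      omega

theorem s_mul {b : ℕ} (hb : 2 ≤ b) (k n : ℕ) : s b (k * n) ≤ k * s b n := by
  induction k with
  | zero => simp [s_zero]
  | succ k ih =>
    rw [Nat.add_mul, Nat.add_mul, Nat.one_mul, Nat.one_mul]
    exact (s_add hb _ _).trans (Nat.add_le_add_right ih _)

theorem s_sum {b : ℕ} (hb : 2 ≤ b) {ι : Type} (t : Finset ι) (f : ι → ℕ) :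
    s b (∑ i ∈ t, f i) ≤ ∑ i ∈ t, s b (f i) := by
  classical
  induction t using Finset.induction_on with
  | empty => simp [s_zero]
  | insert a t ha ih =>
    rw [Finset.sum_insert ha, Finset.sum_insert ha]
    exact (s_add hb _ _).trans (Nat.add_le_add_left ih _)

theorem s_pow_mul {b : ℕ} (hb : 2 ≤ b) (k n : ℕ) : s b (b ^ k * n) = s b n := by
  induction k with
  | zero => simp
  | succ k ih =>
    rw [s_rec hb, show b ^ (k + 1) * n = b * (b ^ k * n) by ring, Nat.mul_mod_right,
      Nat.mul_div_cancel_left _ (by omega), ih]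
    omega

theorem s_div_le {b : ℕ} (hb : 2 ≤ b) (k n : ℕ) : s b (n / b ^ k) ≤ s b n := by
  induction k with
  | zero => simp
  | succ k ih =>
    refine le_trans ?_ ih
    rw [pow_succ, ← Nat.div_div_eq_div_mul, s_rec hb (n / b ^ k)]
    omega

theorem s_lt {b : ℕ} (hb : 2 ≤ b) : ∀ (k n : ℕ), n < b ^ k → s b n ≤ (b - 1) * k := by
  intro k
  induction k with
  | zero =>
    intro n h
    have : n = 0 := by simpa using h
    subst this
    simp [s_zero]
  | succ k ih =>
    intro n h
    rw [s_rec hb]
    have h1 := Nat.mod_lt n (show b > 0 by omega)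
    have h2 := ih (n / b) (by
      rw [Nat.div_lt_iff_lt_mul (by omega)]
      rw [pow_succ] at h
      exact h)
    have h3 : (b - 1) * (k + 1) = (b - 1) * k + (b - 1) := by ring
    omega

/-- numbers just below a multiple of a power of `b` have large sums of digits -/
theorem s_full {b : ℕ} (hb : 2 ≤ b) (a : ℕ) : ∀ k : ℕ, (b - 1) * k ≤ s b ((a + 1) * b ^ k - 1) := by
  intro k
  induction k with
  | zero => simp
  | succ k ih =>
    have hpos : 0 < (a + 1) * b ^ k := by positivity
    have h1 : (a + 1) * b ^ (k + 1) - 1 = b * ((a + 1) * b ^ k - 1) + (b - 1) := by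
      have h2 : (a + 1) * b ^ (k + 1) = b * ((a + 1) * b ^ k) := by ring
      obtain ⟨z, hz⟩ : ∃ z, (a + 1) * b ^ k = z + 1 := ⟨(a + 1) * b ^ k - 1, by omega⟩
      rw [h2, hz, Nat.add_sub_cancel]
      have : b * (z + 1) = b * z + b := by ring
      omega
    have h3 : b - 1 < b := by omega
    have h4 : (b * ((a + 1) * b ^ k - 1) + (b - 1)) % b = b - 1 := by
      rw [Nat.mul_add_mod, Nat.mod_eq_of_lt h3]
    have h5 : (b * ((a + 1) * b ^ k - 1) + (b - 1)) / b = (a + 1) * b ^ k - 1 := by
      rw [Nat.mul_add_div (by omega), Nat.div_eq_of_lt h3, Nat.add_zero]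
    rw [h1, s_rec hb, h4, h5]
    have : (b - 1) * (k + 1) = (b - 1) * k + (b - 1) := by ring
    omega

/-- the sum of the digits of `d b ^ e - r`, `1 ≤ r ≤ b ^ v` -/
theorem s_below {b : ℕ} (hb : 2 ≤ b) {d e v r : ℕ} (hd : 1 ≤ d) (hv : v ≤ e) (hr : 1 ≤ r)
    (hr2 : r ≤ b ^ v) : (b - 1) * (e - v) ≤ s b (d * b ^ e - r) := by
  have hbv : 0 < b ^ v := by positivity
  obtain ⟨a, rfl⟩ : ∃ a, d = a + 1 := ⟨d - 1, by omega⟩
  have h1 : (a + 1) * b ^ e = b ^ v * ((a + 1) * b ^ (e - v)) := by
    rw [show b ^ e = b ^ v * b ^ (e - v) by rw [← pow_add]; congr 1; omega]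
    ring
  have hpos : 0 < (a + 1) * b ^ (e - v) := by positivity
  have h2 : ((a + 1) * b ^ e - r) / b ^ v = (a + 1) * b ^ (e - v) - 1 := by
    rw [h1]
    obtain ⟨z, hz⟩ : ∃ z, (a + 1) * b ^ (e - v) = z + 1 := ⟨(a + 1) * b ^ (e - v) - 1, by omega⟩
    rw [hz, Nat.add_sub_cancel]
    have h3 : b ^ v * (z + 1) = b ^ v * z + b ^ v := by ring
    have h4 : b ^ v * (z + 1) - r = b ^ v * z + (b ^ v - r) := by omega
    rw [h4, Nat.mul_add_div hbv, Nat.div_eq_of_lt (by omega)]
    omega
  refine le_trans (s_full hb a (e - v)) ?_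
  rw [← h2]
  exact s_div_le hb _ _

end Pool.Agent.V11235.SQ
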